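import Pool.Agent.TH363.OT.Cyc

set_option autoImplicit false

/-!
Consistently ordered hyperplane transversals: for every `d ≥ 3` no finite number `h(d)` exists.
Throughout `d = k + 1`, so that orderings are given by points of `ℝ^k`, and hyperplanes of
`ℝ^(k+1)` have affine coordinate systems `ℝ^k → ℝ^(k+1)`.
-/

namespace Pool.Agent.Results.MP_b157f3_co.NoHellyNumber

open Pool.Agent.TH363.OT Metric Function Topology Filter

/-- The points `x i` and `p i` of `ℝ^k` (`i ∈ B`) have the same `k`-order type: for all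
`i_0 < ⋯ < i_k` in `B` the determinants with rows `(1, x i_j)` and `(1, p i_j)` have the same
sign. -/
def SameOrderType {k n : ℕ} (B : Finset (Fin n)) (x p : Fin n → Fin k → ℝ) : Prop :=
  ∀ T : Fin (k + 1) → Fin n, StrictMono T → (∀ j, T j ∈ B) →
    SignType.sign (odet fun j => x (T j)) = SignType.sign (odet fun j => p (T j))

/-- Some oriented hyperplane of `ℝ^(k+1)` meets the sets `a i`, `i ∈ B`, consistently with the
`k`-ordering given by the points `p i` of `ℝ^k`: there are an affine coordinate system `φ` of a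
hyperplane and coordinates `x i` of points of the hyperplane such that `φ (x i) ∈ a i` for
`i ∈ B` and the `x i` have the same `k`-order type as the `p i`. -/
def MetConsistently {k n : ℕ} (a : Fin n → Set (Fin (k + 1) → ℝ)) (p : Fin n → Fin k → ℝ)
    (B : Finset (Fin n)) : Prop :=
  ∃ φ : (Fin k → ℝ) →ᵃ[ℝ] (Fin (k + 1) → ℝ), Injective φ ∧
    ∃ x : Fin n → Fin k → ℝ, (∀ i ∈ B, φ (x i) ∈ a i) ∧ SameOrderType B x p

/-- The property defining `h(k+1)`: for every `k`-ordered finite family of pairwise disjoint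
nonempty compact convex sets in `ℝ^(k+1)`, if every subfamily of at most `h` members is met by an
oriented hyperplane consistently with the ordering, then so is the whole family. -/
def HellyProperty (k h : ℕ) : Prop :=
  ∀ (n : ℕ) (a : Fin n → Set (Fin (k + 1) → ℝ)) (p : Fin n → Fin k → ℝ),
    (∀ i, (a i).Nonempty ∧ IsCompact (a i) ∧ Convex ℝ (a i)) →
    (∀ i j, i ≠ j → Disjoint (a i) (a j)) →
    (∀ B : Finset (Fin n), B.card ≤ h → MetConsistently a p B) →
    MetConsistently a p Finset.univ

lemma odet_affine {m : ℕ} (ψ : (Fin m → ℝ) →ᵃ[ℝ] (Fin m → ℝ)) :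
    ∃ c : ℝ, ∀ q : Fin (m + 1) → Fin m → ℝ, odet (fun i => ψ (q i)) = odet q * c := by
  let M : Matrix (Fin (m + 1)) (Fin (m + 1)) ℝ := Matrix.of fun i j =>
    (Fin.cons (Fin.cons (1 : ℝ) (ψ 0) : Fin (m + 1) → ℝ)
      (fun l : Fin m => (Fin.cons (0 : ℝ) (ψ.linear (Pi.single l 1)) : Fin (m + 1) → ℝ)) :
        Fin (m + 1) → Fin (m + 1) → ℝ) i j
  refine ⟨M.det, fun q => ?_⟩
  unfold odet
  rw [← Matrix.det_mul]
  congr 1
  ext i j
  rw [Matrix.mul_apply, Fin.sum_univ_succ]
  have h1 : ψ (q i) = ψ 0 + ψ.linear (q i) := by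
    have := ψ.map_vadd 0 (q i)
    simp only [vadd_eq_add, add_zero] at this
    rw [this, add_comm]
  have h2 : q i = ∑ l, q i l • (Pi.single l (1 : ℝ) : Fin m → ℝ) := by
    funext l
    simp [Finset.sum_apply, Pi.single_apply]
  have h3 : ∀ t, ψ (q i) t = ψ 0 t + ∑ l, q i l * ψ.linear (Pi.single l (1 : ℝ)) t := by
    intro t
    rw [h1, Pi.add_apply]
    congr 1
    conv_lhs => rw [h2]
    rw [map_sum, Finset.sum_apply]
    refine Finset.sum_congr rfl fun l _ => ?_
    rw [map_smul, Pi.smul_apply, smul_eq_mul]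
  refine Fin.cases ?_ (fun t => ?_) j
  · simp [M, Matrix.of_apply]
  · simp only [M, Matrix.of_apply, Fin.cons_zero, Fin.cons_succ, one_mul]
    exact h3 t

lemma mul_nonneg_of_sign {a b : ℝ} (h : SignType.sign a = SignType.sign b) : 0 ≤ a * b := by
  rcases lt_trichotomy a 0 with ha | ha | ha
  · rw [sign_neg ha] at h
    have hb : b < 0 := by
      by_contra hb
      rcases (not_lt.1 hb).eq_or_lt with hb | hb
      · rw [← hb, sign_zero] at h; exact absurd h (by decide)
      · rw [sign_pos hb] at h; exact absurd h (by decide)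
    nlinarith
  · rw [ha, zero_mul]
  · rw [sign_pos ha] at h
    have hb : 0 < b := by
      by_contra hb
      rcases (not_lt.1 hb).eq_or_lt with hb | hb
      · rw [hb, sign_zero] at h; exact absurd h (by decide)
      · rw [sign_neg hb] at h; exact absurd h (by decide)
    positivity

lemma sign_of_mul_pos {a b : ℝ} (h : 0 < a * b) : SignType.sign a = SignType.sign b := by
  rcases lt_trichotomy a 0 with ha | ha | ha
  · have hb : b < 0 := by
      by_contra hb
      nlinarith [not_lt.1 hb]
    rw [sign_neg ha, sign_neg hb]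
  · rw [ha, zero_mul] at h; exact absurd h (lt_irrefl _)
  · have hb : 0 < b := (pos_iff_pos_of_mul_pos h).1 ha
    rw [sign_pos ha, sign_pos hb]

/-- equality of order types gives equality of signs for all tuples -/
lemma all_tuples {k n : ℕ} {x p : Fin n → Fin k → ℝ} (h : SameOrderType Finset.univ x p)
    (T : Fin (k + 1) → Fin n) : 0 ≤ odet (fun j => x (T j)) * odet (fun j => p (T j)) := by
  by_cases hT : Injective T
  · let σ := Tuple.sort T
    have h1 : StrictMono (T ∘ σ) :=
      (Tuple.monotone_sort T).strictMono_of_injective (hT.comp σ.injective)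
    have h2 := mul_nonneg_of_sign (h (T ∘ σ) h1 (fun j => Finset.mem_univ _))
    have h3 := prod_perm x p (T := T ∘ σ) (S := T) σ (fun i => rfl)
    rw [h3] at h2
    exact h2
  · obtain ⟨i, j, hij, hne⟩ : ∃ i j, T i = T j ∧ i ≠ j := by
      unfold Injective at hT
      push Not at hT
      exact hT
    rw [odet_eq_zero (fun j => x (T j)) hne (by rw [hij]), zero_mul]

theorem main (k : ℕ) (hk : 2 ≤ k) (N : ℕ) :
    ∃ (n : ℕ) (a : Fin n → Set (Fin (k + 1) → ℝ)) (p : Fin n → Fin k → ℝ), N < n ∧
      (∀ i, IsCompact (a i) ∧ Convex ℝ (a i) ∧ (interior (a i)).Nonempty) ∧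
      (∀ i j, i ≠ j → Disjoint (a i) (a j)) ∧
      (∀ T : Fin (k + 1) → Fin n, StrictMono T → odet (fun j => p (T j)) ≠ 0) ∧
      (∀ B : Finset (Fin n), B ≠ Finset.univ → MetConsistently a p B) ∧
      ¬ MetConsistently a p Finset.univ := by
  classical
  obtain ⟨ι, hι, b, p, hN, h1, h2, h3, h4, h5⟩ := exists_good k hk N
  let f := (Fintype.equivFin ι).symm
  have hK : IsCompact {y : ι → Fin k → ℝ | ∀ i, y i ∈ b i} := by
    have := isCompact_univ_pi (fun i => (h1 i).2.1)
    convert this using 1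
    ext y; simp
  let U : Set (ι → Fin k → ℝ) := {y |
    (∃ T : Fin (k + 1) → ι, odet (fun j => y (T j)) * odet (fun j => p (T j)) < 0) ∧
    (∃ T : Fin (k + 1) → ι, 0 < odet (fun j => y (T j)) * odet (fun j => p (T j)))}
  have hcont : ∀ T : Fin (k + 1) → ι, Continuous fun y : ι → Fin k → ℝ =>
      odet (fun j => y (T j)) * odet (fun j => p (T j)) := by
    intro T
    refine Continuous.mul (continuous_odet.comp ?_) continuous_const
    fun_prop
  have hU : IsOpen U := by
    have e : U = (⋃ T : Fin (k + 1) → ι, {y | odet (fun j => y (T j)) * odet (fun j => p (T j)) < 0}) ∩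
        (⋃ T : Fin (k + 1) → ι, {y | 0 < odet (fun j => y (T j)) * odet (fun j => p (T j))}) := by
      ext y; simp [U]
    rw [e]
    exact (isOpen_iUnion fun T => isOpen_lt (hcont T) continuous_const).inter
      (isOpen_iUnion fun T => isOpen_lt continuous_const (hcont T))
  obtain ⟨δ1, hδ1, hsub⟩ := hK.exists_cthickening_subset_open hU (fun y hy => h5 y hy)
  obtain ⟨δ, hδ, hδle, hdis⟩ : ∃ δ : ℝ, 0 < δ ∧ δ ≤ δ1 ∧
      ∀ i j, i ≠ j → Disjoint (cthickening δ (b i)) (cthickening δ (b j)) := by
    have e1 : ∀ᶠ δ : ℝ in 𝓝[>] 0, ∀ i j, i ≠ j →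
        Disjoint (cthickening δ (b i)) (cthickening δ (b j)) := by
      rw [eventually_all]; intro i
      rw [eventually_all]; intro j
      by_cases hij : i = j
      · filter_upwards with δ h; exact absurd hij h
      · obtain ⟨δ0, hδ0, hd⟩ := (h2 i j hij).exists_cthickenings (h1 i).2.1 (h1 j).2.1.isClosed
        filter_upwards [(eventually_lt_nhds hδ0).filter_mono nhdsWithin_le_nhds] with δ hδ _
        exact hd.mono (cthickening_mono hδ.le _) (cthickening_mono hδ.le _)
    have e2 : ∀ᶠ δ : ℝ in 𝓝[>] 0, δ < δ1 := (eventually_lt_nhds hδ1).filter_mono nhdsWithin_le_nhds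
    obtain ⟨δ, ⟨g1, g2⟩, g3⟩ := ((e1.and e2).and self_mem_nhdsWithin).exists
    exact ⟨δ, g3, g2.le, g1⟩
  -- projection and section
  let π : (Fin (k + 1) → ℝ) → (Fin k → ℝ) := fun X l => X (Fin.castSucc l)
  let a : Fin (Fintype.card ι) → Set (Fin (k + 1) → ℝ) := fun i =>
    {X | π X ∈ cthickening δ (b (f i)) ∧ |X (Fin.last k)| ≤ δ}
  have hπ : Continuous π := by fun_prop
  refine ⟨Fintype.card ι, a, fun i => p (f i), hN, fun i => ⟨?_, ?_, ?_⟩, ?_, ?_, ?_, ?_⟩
  · have hc : IsCompact ((cthickening δ (b (f i))) ×ˢ (Set.Icc (-δ) δ)) :=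
      (h1 (f i)).2.1.cthickening.prod isCompact_Icc
    have e : a i = (fun z : (Fin k → ℝ) × ℝ => (Fin.snoc z.1 z.2 : Fin (k + 1) → ℝ)) ''
        ((cthickening δ (b (f i))) ×ˢ (Set.Icc (-δ) δ)) := by
      ext X
      constructor
      · rintro ⟨g1, g2⟩
        refine ⟨(π X, X (Fin.last k)), ⟨g1, abs_le.1 g2⟩, ?_⟩
        funext j
        refine Fin.lastCases ?_ (fun j => ?_) j
        · simp
        · simp [π]
      · rintro ⟨z, ⟨g1, g2⟩, rfl⟩
        refine ⟨?_, ?_⟩
        · have : π (Fin.snoc z.1 z.2 : Fin (k + 1) → ℝ) = z.1 := by funext j; simp [π]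
          rw [this]; exact g1
        · simpa using abs_le.2 g2
    rw [e]
    apply hc.image
    refine continuous_pi fun j => ?_
    refine Fin.lastCases ?_ (fun j => ?_) j
    · simp only [Fin.snoc_last]; fun_prop
    · simp only [Fin.snoc_castSucc]; fun_prop
  · rintro X ⟨g1, g2⟩ Y ⟨g3, g4⟩ s t hs ht hst
    refine ⟨(h1 (f i)).2.2.cthickening δ g1 g3 hs ht hst, ?_⟩
    simp only [Pi.add_apply, Pi.smul_apply, smul_eq_mul]
    calc |s * X (Fin.last k) + t * Y (Fin.last k)| ≤ |s * X (Fin.last k)| + |t * Y (Fin.last k)| :=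
          abs_add_le _ _
      _ = s * |X (Fin.last k)| + t * |Y (Fin.last k)| := by
          rw [abs_mul, abs_mul, abs_of_nonneg hs, abs_of_nonneg ht]
      _ ≤ s * δ + t * δ := add_le_add (mul_le_mul_of_nonneg_left g2 hs)
          (mul_le_mul_of_nonneg_left g4 ht)
      _ = δ := by rw [← add_mul, hst, one_mul]
  · obtain ⟨w, hw⟩ := (h1 (f i)).1
    refine ⟨(Fin.snoc w 0 : Fin (k + 1) → ℝ), ?_⟩
    apply interior_maximal (s := a i)
      (t := π ⁻¹' (thickening δ (b (f i))) ∩ {X : Fin (k + 1) → ℝ | |X (Fin.last k)| < δ})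
    · rintro X ⟨g1, g2⟩
      exact ⟨thickening_subset_cthickening _ _ g1, le_of_lt g2⟩
    · exact (isOpen_thickening.preimage hπ).inter (isOpen_lt (by fun_prop) continuous_const)
    · refine ⟨?_, by simpa using hδ⟩
      have : π (Fin.snoc w 0 : Fin (k + 1) → ℝ) = w := by funext j; simp [π]
      show π (Fin.snoc w 0 : Fin (k + 1) → ℝ) ∈ thickening δ (b (f i))
      rw [this]
      exact self_subset_thickening hδ _ hw
  · intro i j hij
    have := hdis (f i) (f j) (fun h => hij (f.injective h))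
    rw [Set.disjoint_left] at this ⊢
    rintro X ⟨g1, -⟩ ⟨g2, -⟩
    exact this g1 g2
  · intro T hT
    exact h3 (fun j => f (T j)) (f.injective.comp hT.injective)
  · intro B hB
    obtain ⟨i0, hi0⟩ : ∃ i0, i0 ∉ B := by
      by_contra hcon
      push Not at hcon
      exact hB (Finset.eq_univ_iff_forall.2 hcon)
    obtain ⟨y, hy1, hy2⟩ := h4 (f i0)
    let φl : (Fin k → ℝ) →ₗ[ℝ] (Fin (k + 1) → ℝ) :=
      { toFun := fun v => (Fin.snoc v 0 : Fin (k + 1) → ℝ)
        map_add' := by
          intro v w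
          funext j
          refine Fin.lastCases ?_ (fun j => ?_) j <;> simp
        map_smul' := by
          intro c v
          funext j
          refine Fin.lastCases ?_ (fun j => ?_) j <;> simp }
    refine ⟨φl.toAffineMap, ?_, fun i => y (f i), ?_, ?_⟩
    · intro v w hvw
      funext j
      have := congrFun hvw (Fin.castSucc j)
      simpa [φl] using this
    · intro i _
      refine ⟨?_, ?_⟩
      · have : π (φl.toAffineMap (y (f i))) = y (f i) := by funext j; simp [π, φl]
        rw [this]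
        exact self_subset_cthickening _ (hy1 (f i))
      · have : φl.toAffineMap (y (f i)) (Fin.last k) = 0 := by simp [φl]
        rw [this, abs_zero]; exact hδ.le
    · intro T hT hTB
      apply sign_of_mul_pos
      apply hy2 (fun j => f (T j)) (f.injective.comp hT.injective)
      intro j hj
      exact hi0 (f.injective hj ▸ hTB j)
  · rintro ⟨φ, -, x, hx, hxo⟩
    have hx' : ∀ i, φ (x i) ∈ a i := fun i => hx i (Finset.mem_univ _)
    -- the projected points
    let πa : (Fin (k + 1) → ℝ) →ᵃ[ℝ] (Fin k → ℝ) :=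
      (LinearMap.funLeft ℝ ℝ (Fin.castSucc : Fin k → Fin (k + 1))).toAffineMap
    have hπa : ∀ X, πa X = π X := fun X => rfl
    obtain ⟨c, hc⟩ := odet_affine (πa.comp φ)
    let z : ι → Fin k → ℝ := fun j => π (φ (x (f.symm j)))
    have hz : ∀ j, z j ∈ cthickening δ (b j) := by
      intro j
      have := (hx' (f.symm j)).1
      rwa [f.apply_symm_apply] at this
    have hz2 : ∀ j, ∃ w ∈ b j, dist (z j) w ≤ δ := by
      intro j
      have := hz j
      rw [(h1 j).2.1.cthickening_eq_biUnion_closedBall hδ.le] at this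
      simp only [Set.mem_iUnion, mem_closedBall, exists_prop] at this
      exact this
    choose w hw1 hw2 using hz2
    have hzK : z ∈ cthickening δ {y : ι → Fin k → ℝ | ∀ i, y i ∈ b i} :=
      mem_cthickening_of_dist_le z w δ _ hw1 ((dist_pi_le_iff hδ.le).2 hw2)
    obtain ⟨⟨T, hT⟩, ⟨T', hT'⟩⟩ := hsub (cthickening_mono hδle _ hzK)
    have key : ∀ T : Fin (k + 1) → ι, ∃ r : ℝ, 0 ≤ r ∧
        odet (fun j => z (T j)) * odet (fun j => p (T j)) = c * r := by
      intro T
      refine ⟨_, all_tuples hxo (fun j => f.symm (T j)), ?_⟩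
      have e1 := hc (fun j => x (f.symm (T j)))
      have e2 : odet (fun j => z (T j)) = odet (fun j => x (f.symm (T j))) * c := by
        rw [← e1]; rfl
      rw [e2]
      simp only [Equiv.apply_symm_apply]
      ring
    obtain ⟨r, hr, e1⟩ := key T
    obtain ⟨r', hr', e2⟩ := key T'
    rw [e1] at hT
    rw [e2] at hT'
    have hc1 : c < 0 := by
      by_contra hcon
      exact absurd hT (not_lt.2 (mul_nonneg (not_lt.1 hcon) hr))
    nlinarith [mul_nonneg (neg_nonneg.2 hc1.le) hr']

/-- **No finite `h(d)` exists for `d ≥ 3`** (`d = k + 1`). For every `k ≥ 2` no number `h` has the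
property defining `h(k+1)`. Moreover for every `N` there is a `k`-ordered family of more than `N`
pairwise disjoint convex bodies in `ℝ^(k+1)`, ordered by points in general position, such that
every proper subfamily is met by an oriented hyperplane consistently with the ordering, but the
whole family is not. -/
theorem result (k : ℕ) (hk : 2 ≤ k) :
    (∀ h : ℕ, ¬ HellyProperty k h) ∧
    ∀ N : ℕ, ∃ (n : ℕ) (a : Fin n → Set (Fin (k + 1) → ℝ)) (p : Fin n → Fin k → ℝ), N < n ∧
      (∀ i, IsCompact (a i) ∧ Convex ℝ (a i) ∧ (interior (a i)).Nonempty) ∧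
      (∀ i j, i ≠ j → Disjoint (a i) (a j)) ∧
      (∀ T : Fin (k + 1) → Fin n, StrictMono T → odet (fun j => p (T j)) ≠ 0) ∧
      (∀ B : Finset (Fin n), B ≠ Finset.univ → MetConsistently a p B) ∧
      ¬ MetConsistently a p Finset.univ := by
  refine ⟨fun h hh => ?_, main k hk⟩
  obtain ⟨n, a, p, hn, h1, h2, -, h4, h5⟩ := main k hk h
  apply h5
  apply hh n a p (fun i => ⟨(h1 i).2.2.mono interior_subset, (h1 i).1, (h1 i).2.1⟩) h2
  intro B hB
  apply h4
  rintro rfl
  rw [Finset.card_univ, Fintype.card_fin] at hB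
  omega

end Pool.Agent.Results.MP_b157f3_co.NoHellyNumber
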